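import Pool.Agent.helper22.GS.Spec

set_option autoImplicit false

namespace Pool.Agent.GS

open Module

theorem HA2_not_sq {K : Type} [Field K] [Finite K] (hodd : Nat.card K % 2 = 1) (g : K) (hg0 : g ≠ 0)
    (hg : orderOf g = Nat.card K - 1) (hQ : 3 ≤ Nat.card K) : ¬ IsSquare g := by
  rintro ⟨t, ht⟩
  have ht0 : t ≠ 0 := by
    intro h
    rw [h, mul_zero] at ht
    exact hg0 ht
  haveI := Fintype.ofFinite K
  have h1 : t ^ (Nat.card K - 1) = 1 := by
    rw [Nat.card_eq_fintype_card]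
    exact FiniteField.pow_card_sub_one_eq_one t ht0
  obtain ⟨c, hc⟩ : ∃ c, Nat.card K - 1 = 2 * c := ⟨(Nat.card K - 1) / 2, by omega⟩
  have h2 : g ^ c = 1 := by
    rw [ht, ← pow_two, ← pow_mul, ← hc, h1]
  have h3 := orderOf_dvd_of_pow_eq_one h2
  rw [hg, hc] at h3
  have h4 := Nat.le_of_dvd (by omega) h3
  omega

theorem HA2_sig {K : Type} [Field K] (h : K) (h0 : h ≠ 0) :
    h + h⁻¹ - 2 = (h - 1) ^ 2 / h := by
  field_simp
  ring

theorem HA2 (hHP : HP_stmt) (hEF : EF_stmt) : HA2_stmt := by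
  intro F _ _ r m hchar hr hr2 hm hdvd
  obtain ⟨K, E, _, _, _, _, hfK, hfE, hrk, hcard, -, ⟨g, hg0, hg⟩, -⟩ := hEF (F := F) m hm
  have hrc : ringChar K ≠ 2 := by
    rw [← Algebra.ringChar_eq F K]
    exact hchar
  have hodd : Nat.card K % 2 = 1 := by
    haveI := Fintype.ofFinite K
    rw [Nat.card_eq_fintype_card]
    exact FiniteField.odd_card_of_char_ne_two hrc
  have hQ1 : 1 < Nat.card K := Finite.one_lt_card
  have hr3 : 3 ≤ r := by
    have := hr.two_le
    omega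
  rw [← hcard] at hdvd
  have hrle : r ≤ Nat.card K - 1 := Nat.le_of_dvd (by omega) hdvd
  have key : ∀ h : K, h ≠ 0 → h ≠ 1 → r ∣ orderOf h → HD F K r m (h + h⁻¹ - 2) := by
    intro h h0 h1 hro
    refine ⟨hfK, hrk, ?_, ?_⟩
    · rw [HA2_sig h h0]
      exact div_ne_zero (pow_ne_zero _ (sub_ne_zero.2 h1)) h0
    · intro M hM hT j c hc
      exact hHP (K := K) (E := K) r hr hr2 (h + h⁻¹ - 2) h h0 (by simp) hro M hM hT j c hc
  refine ⟨⟨K, inferInstance, inferInstance, ?_⟩, ⟨K, inferInstance, inferInstance, ?_⟩⟩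
  · obtain ⟨c, hc⟩ := hdvd
    have hc0 : c ≠ 0 := by
      rintro rfl
      omega
    have hord : orderOf (g ^ c) = r := by
      rw [orderOf_pow_of_dvd hc0 (by rw [hg, hc]; exact dvd_mul_left _ _), hg, hc]
      exact Nat.mul_div_cancel _ (Nat.pos_of_ne_zero hc0)
    have h0 : g ^ c ≠ 0 := pow_ne_zero _ hg0
    have h1 : g ^ c ≠ 1 := by
      intro h
      rw [h, orderOf_one] at hord
      omega
    refine ⟨_, key (g ^ c) h0 h1 (by rw [hord]), ?_⟩
    rw [HA2_sig _ h0]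
    obtain ⟨s, hs⟩ : ∃ s, r + 1 = 2 * s := by
      have := hr.eq_two_or_odd
      exact ⟨(r + 1) / 2, by omega⟩
    have hsq : g ^ c = ((g ^ c) ^ s) ^ 2 := by
      rw [← pow_mul, mul_comm s 2, ← hs, pow_succ]
      have : (g ^ c) ^ r = 1 := by
        conv_lhs => rw [← hord]
        exact pow_orderOf_eq_one _
      rw [this, one_mul]
    refine ⟨(g ^ c - 1) / (g ^ c) ^ s, ?_⟩
    rw [div_mul_div_comm, ← pow_two, ← pow_two, ← hsq]
  · have h1 : g ≠ 1 := by
      intro h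
      rw [h, orderOf_one] at hg
      omega
    refine ⟨_, key g hg0 h1 (by rw [hg]; exact hdvd), ?_⟩
    rw [HA2_sig _ hg0]
    rintro ⟨s, hs⟩
    refine HA2_not_sq hodd g hg0 hg (by omega) ?_
    have hs0 : s ≠ 0 := by
      rintro rfl
      rw [mul_zero] at hs
      exact (div_ne_zero (pow_ne_zero _ (sub_ne_zero.2 h1)) hg0) hs
    refine ⟨(g - 1) / s, ?_⟩
    have h2 : (g - 1) ^ 2 = s * s * g := by
      rw [← hs]
      field_simp
    rw [div_mul_div_comm, ← pow_two, h2]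
    field_simp

end Pool.Agent.GS
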