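import Pool.Agent.helper22.GS.Spec

set_option autoImplicit false

namespace Pool.Agent.GS

open Module

theorem HB (hHP : HP_stmt) (hEF : EF_stmt) : HB_stmt := by
  intro F _ _ r m hchar hr hr2 hDv
  obtain ⟨hm, hdvd⟩ := hDv
  obtain ⟨K, E, _, _, _, _, hfK, hfE, hrk, hcard, ⟨g, hg0, hg⟩, -, hfix⟩ := hEF (F := F) m hm
  have hrcK : ringChar K = 2 := by
    rw [← Algebra.ringChar_eq F K]
    exact hchar
  have hrcE : ringChar E = 2 := by
    rw [← Algebra.ringChar_eq K E]
    exact hrcK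
  haveI hchE : CharP E 2 := by
    rw [← hrcE]
    exact ringChar.charP E
  have hQ1 : 1 < Nat.card K := Finite.one_lt_card
  obtain ⟨n, hn⟩ : ∃ n : ℕ, Nat.card K = 2 ^ n := by
    haveI := Fintype.ofFinite K
    haveI : CharP K 2 := by
      rw [← hrcK]
      exact ringChar.charP K
    obtain ⟨n, -, hn⟩ := FiniteField.card K 2
    exact ⟨n, by rw [Nat.card_eq_fintype_card]; exact hn⟩
  have hdvd' : r ∣ Nat.card K ^ 2 - 1 := by
    rw [hcard, ← pow_mul, mul_comm m 2]
    exact hdvd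
  have hQpos : 1 ≤ Nat.card K ^ 2 - 1 := by
    have : 2 ^ 2 ≤ Nat.card K ^ 2 := Nat.pow_le_pow_left hQ1 2
    omega
  obtain ⟨c, hc⟩ := hdvd'
  have hc0 : c ≠ 0 := by
    rintro rfl
    omega
  obtain ⟨h, hh⟩ : ∃ h, h = g ^ c := ⟨_, rfl⟩
  have hord : orderOf h = r := by
    rw [hh, orderOf_pow_of_dvd hc0 (by rw [hg, hc]; exact dvd_mul_left _ _), hg, hc]
    exact Nat.mul_div_cancel _ (Nat.pos_of_ne_zero hc0)
  have h0 : h ≠ 0 := by rw [hh]; exact pow_ne_zero _ hg0
  have hsum : (h + h⁻¹) ^ Nat.card K = h + h⁻¹ := by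
    rw [hn, add_pow_char_pow, ← hn, inv_pow]
    have hfac : Nat.card K ^ 2 - 1 = (Nat.card K + 1) * (Nat.card K - 1) := by
      have := Nat.sq_sub_sq (Nat.card K) 1
      simpa using this
    have hd : r ∣ (Nat.card K + 1) * (Nat.card K - 1) := by
      rw [← hfac, hc]
      exact dvd_mul_right _ _
    rcases (Nat.Prime.dvd_mul hr).1 hd with h1 | h1
    · have h2 : h ^ (Nat.card K + 1) = 1 := orderOf_dvd_iff_pow_eq_one.1 (by rw [hord]; exact h1)
      have h3 : h ^ Nat.card K = h⁻¹ := by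
        rw [pow_succ] at h2
        exact eq_inv_of_mul_eq_one_left h2
      rw [h3, inv_inv, add_comm]
    · have h2 : h ^ (Nat.card K - 1) = 1 := orderOf_dvd_iff_pow_eq_one.1 (by rw [hord]; exact h1)
      have h3 : h ^ Nat.card K = h := by
        have h4 : Nat.card K = (Nat.card K - 1) + 1 := by omega
        rw [h4, pow_succ, h2, one_mul]
      rw [h3]
  obtain ⟨a, ha⟩ := hfix _ hsum
  have h20 : (2 : E) = 0 := CharTwo.two_eq_zero
  refine ⟨K, inferInstance, inferInstance, a, ⟨hfK, hrk, ?_, ?_⟩, ?_⟩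
  · rintro rfl
    rw [map_zero] at ha
    have h1 : h ^ 2 = 1 := by
      have h2 : h * (h + h⁻¹) = 0 := by rw [← ha, mul_zero]
      rw [mul_add, mul_inv_cancel₀ h0] at h2
      have h3 : h ^ 2 = -1 := by
        rw [pow_two]
        exact eq_neg_of_add_eq_zero_left h2
      rw [h3]
      have h4 : (1 : E) + 1 = 0 := by rw [one_add_one_eq_two, h20]
      exact (eq_neg_of_add_eq_zero_left h4).symm
    have h2 := orderOf_dvd_of_pow_eq_one h1
    rw [hord] at h2
    exact hr2 ((Nat.prime_dvd_prime_iff_eq hr Nat.prime_two).1 h2)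
  · intro M hM hT j d hd
    exact hHP (K := K) (E := E) r hr hr2 a h h0 (by rw [h20, zero_add, ha]) (by rw [hord]) M hM hT j d hd
  · exact FiniteField.isSquare_of_char_two hrcK a

end Pool.Agent.GS
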