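import Pool.Agent.helper22.GS.Spec

set_option autoImplicit false

namespace Pool.Agent.GS

open Module

theorem Q3 (hDG : DG_stmt) (hBF : BF_stmt) : Q3_stmt := by
  intro F K _ _ _ _ _ β₀ hchar α σ δ hα hδ hsq htr
  have hfF : Finite F := Finite.of_injective (algebraMap F K) (algebraMap F K).injective
  have hS : Sym (bf F K α) := hBF.1 α hα
  obtain ⟨⟨u, hu⟩, -⟩ := hDG (bf F K α) hchar hS β₀ (fun _ => δ) (fun _ => hδ) (by
    obtain ⟨s, hs⟩ := hsq
    refine ⟨s * δ, ?_⟩
    rw [Fin.prod_const]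
    linear_combination δ ^ 2 * hs)
  have hbf : ∀ x y : K, bf F K α x y = Algebra.trace F K (α⁻¹ * x * y) := fun x y => rfl
  have hrepr : ∀ (x : K) (i : Fin 3), bf F K α x (u i) = u.repr x i * δ := by
    intro x i
    conv_lhs => rw [← u.sum_repr x]
    rw [map_sum, LinearMap.sum_apply]
    have h1 : ∀ j, bf F K α (u.repr x j • u j) (u i) = u.repr x j * (if j = i then δ else 0) := by
      intro j
      rw [map_smul, LinearMap.smul_apply, smul_eq_mul, hu j i]
    rw [Finset.sum_congr rfl fun j _ => h1 j]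
    simp
  have htrace : Algebra.trace F K σ * δ = ∑ i, Algebra.trace F K (σ * α⁻¹ * u i ^ 2) := by
    rw [Algebra.trace_eq_matrix_trace u σ, Matrix.trace, Finset.sum_mul]
    refine Finset.sum_congr rfl fun i _ => ?_
    rw [Matrix.diag_apply, Algebra.leftMulMatrix_eq_repr_mul, ← hrepr, hbf]
    congr 1
    ring
  by_contra hc
  push Not at hc
  have hz : ∀ i, Algebra.trace F K (σ * α⁻¹ * u i ^ 2) = 0 := by
    intro i
    refine hc (u i) ?_
    rw [hu i i, if_pos rfl]
  rw [Finset.sum_congr rfl fun i _ => hz i, Finset.sum_const_zero] at htrace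
  exact (mul_ne_zero htr hδ) htrace

end Pool.Agent.GS
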