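import Pool.Agent.helper22.GS.Spec

set_option autoImplicit false

namespace Pool.Agent.GS

open Module

section SB

variable {F V : Type} [Field F] [AddCommGroup V] [Module F V]

/-- a symplectic family -/
def SB_P (B : LinearMap.BilinForm F V) (n : ℕ) (e f : Fin n → V) : Prop :=
  (∀ i j, B (e i) (e j) = 0) ∧ (∀ i j, B (f i) (f j) = 0) ∧
    ∀ i j, B (e i) (f j) = if i = j then 1 else 0

theorem SB_li {B : LinearMap.BilinForm F V} (hB : Alt B) {n : ℕ} {e f : Fin n → V}
    (h : SB_P B n e f) : LinearIndependent F (Sum.elim e f) := by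
  rw [Fintype.linearIndependent_iff]
  intro g hg
  rw [Fintype.sum_sum_type] at hg
  simp only [Sum.elim_inl, Sum.elim_inr] at hg
  have hr : ∀ j, g (Sum.inr j) = 0 := by
    intro j
    have h1 := congrArg (B (e j)) hg
    rw [map_add, map_sum, map_sum, map_zero] at h1
    simp only [map_smul, smul_eq_mul, h.1, h.2.2, mul_zero, Finset.sum_const_zero, zero_add,
      mul_ite, mul_one] at h1
    simpa using h1
  have hl : ∀ j, g (Sum.inl j) = 0 := by
    intro j
    have h1 := congrArg (B (f j)) hg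
    rw [map_add, map_sum, map_sum, map_zero] at h1
    have h2 : ∀ i, B (f j) (e i) = -(if i = j then 1 else 0) := fun i => by
      rw [hB.neg, h.2.2]
    simp only [map_smul, smul_eq_mul, h.2.1, h2, mul_zero, Finset.sum_const_zero, add_zero,
      mul_neg, mul_ite, mul_one, Finset.sum_neg_distrib] at h1
    simpa using h1
  rintro (j | j)
  · exact hl j
  · exact hr j

/-- the projection to the orthogonal complement -/
def SB_pr (B : LinearMap.BilinForm F V) {n : ℕ} (e f : Fin n → V) (v : V) : V :=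
  v - ∑ i, B v (f i) • e i - ∑ i, B (e i) v • f i

theorem SB_pr_e {B : LinearMap.BilinForm F V} {n : ℕ} {e f : Fin n → V}
    (h : SB_P B n e f) (v : V) (j : Fin n) : B (e j) (SB_pr B e f v) = 0 := by
  unfold SB_pr
  rw [map_sub, map_sub, map_sum, map_sum]
  simp [h.1, h.2.2]

theorem SB_pr_f {B : LinearMap.BilinForm F V} (hB : Alt B) {n : ℕ} {e f : Fin n → V}
    (h : SB_P B n e f) (v : V) (j : Fin n) : B (f j) (SB_pr B e f v) = 0 := by
  unfold SB_pr
  have h2 : ∀ i, B (f j) (e i) = -(if i = j then 1 else 0) := fun i => by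
    rw [hB.neg, h.2.2]
  rw [map_sub, map_sub, map_sum, map_sum]
  simp only [map_smul, smul_eq_mul, h.2.1, h2, mul_zero, Finset.sum_const_zero, sub_zero,
      mul_neg, mul_ite, mul_one, Finset.sum_neg_distrib, sub_neg_eq_add]
  rw [hB.neg (f j) v]
  simp

theorem SB_ext {B : LinearMap.BilinForm F V} (hB : Alt B) {n : ℕ} {e f : Fin n → V}
    (h : SB_P B n e f) (v : V) (hv : SB_pr B e f v ≠ 0) :
    ∃ e' f' : Fin (n + 1) → V, SB_P B (n + 1) e' f' := by
  obtain ⟨x, hx⟩ : ∃ x, x = SB_pr B e f v := ⟨_, rfl⟩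
  have hxe : ∀ j, B (e j) x = 0 := fun j => by rw [hx]; exact SB_pr_e h v j
  have hxf : ∀ j, B (f j) x = 0 := fun j => by rw [hx]; exact SB_pr_f hB h v j
  have hxe' : ∀ j, B x (e j) = 0 := fun j => by rw [hB.neg, hxe, neg_zero]
  have hxf' : ∀ j, B x (f j) = 0 := fun j => by rw [hB.neg, hxf, neg_zero]
  rw [← hx] at hv
  obtain ⟨u, hu⟩ : ∃ u, B x u = 1 := by
    by_contra hc
    refine hv (hB.nd x fun w => ?_)
    by_contra hw
    exact hc ⟨(B x w)⁻¹ • w, by rw [map_smul, smul_eq_mul, inv_mul_cancel₀ hw]⟩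
  obtain ⟨y, hy⟩ : ∃ y, y = SB_pr B e f u := ⟨_, rfl⟩
  have hye : ∀ j, B (e j) y = 0 := fun j => by rw [hy]; exact SB_pr_e h u j
  have hyf : ∀ j, B (f j) y = 0 := fun j => by rw [hy]; exact SB_pr_f hB h u j
  have hyf' : ∀ j, B y (f j) = 0 := fun j => by rw [hB.neg, hyf, neg_zero]
  have hxy : B x y = 1 := by
    rw [hy]
    unfold SB_pr
    rw [map_sub, map_sub, map_sum, map_sum]
    simp [hxe', hxf', hu]
  refine ⟨Fin.cons x e, Fin.cons y f, ?_, ?_, ?_⟩
  · intro i j
    refine Fin.cases ?_ (fun i => ?_) i <;> refine Fin.cases ?_ (fun j => ?_) j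
    · simp [hB.alt]
    · simp [hxe']
    · simp [hxe]
    · simp [h.1]
  · intro i j
    refine Fin.cases ?_ (fun i => ?_) i <;> refine Fin.cases ?_ (fun j => ?_) j
    · simp [hB.alt]
    · simp [hyf']
    · simp [hyf]
    · simp [h.2.1]
  · intro i j
    refine Fin.cases ?_ (fun i => ?_) i <;> refine Fin.cases ?_ (fun j => ?_) j
    · simp [hxy]
    · simp [hxf', (Fin.succ_ne_zero j).symm]
    · simp [hye, Fin.succ_ne_zero i]
    · simp [h.2.2]

end SB

theorem SB : SB_stmt := by
  intro F V _ _ _ _ B hB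
  obtain ⟨n, ⟨e, f, h⟩, hmax⟩ : ∃ n, (∃ e f : Fin n → V, SB_P B n e f) ∧
      ¬ ∃ e f : Fin (n + 1) → V, SB_P B (n + 1) e f := by
    by_contra hc
    push Not at hc
    have hall : ∀ n, ∃ e f : Fin n → V, SB_P B n e f := by
      intro n
      induction n with
      | zero => exact ⟨fun i => i.elim0, fun i => i.elim0, fun i => i.elim0, fun i => i.elim0,
          fun i => i.elim0⟩
      | succ n ih =>
        obtain ⟨e, f, h⟩ := ih
        exact hc n ⟨e, f, h⟩
    obtain ⟨e, f, h⟩ := hall (finrank F V + 1)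
    have h1 := (SB_li hB h).fintype_card_le_finrank
    simp at h1
    omega
  have hpr : ∀ v, SB_pr B e f v = 0 := by
    intro v
    by_contra hv
    exact hmax (SB_ext hB h v hv)
  have hsp : ⊤ ≤ Submodule.span F (Set.range (Sum.elim e f)) := by
    intro v _
    have h1 := hpr v
    unfold SB_pr at h1
    have h2 : v = ∑ i, B v (f i) • e i + ∑ i, B (e i) v • f i := by
      rw [sub_sub, sub_eq_zero] at h1
      exact h1
    rw [h2]
    refine Submodule.add_mem _ ?_ ?_
    · refine Submodule.sum_mem _ fun i _ => Submodule.smul_mem _ _ (Submodule.subset_span ?_)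
      exact ⟨Sum.inl i, rfl⟩
    · refine Submodule.sum_mem _ fun i _ => Submodule.smul_mem _ _ (Submodule.subset_span ?_)
      exact ⟨Sum.inr i, rfl⟩
  refine ⟨n, Basis.mk (SB_li hB h) hsp, ?_, ?_, ?_⟩
  · intro i j
    rw [Basis.mk_apply, Basis.mk_apply]
    exact h.1 i j
  · intro i j
    rw [Basis.mk_apply, Basis.mk_apply]
    exact h.2.1 i j
  · intro i j
    rw [Basis.mk_apply, Basis.mk_apply]
    exact h.2.2 i j

end Pool.Agent.GS
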